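import Pool.Agent.Helper3.WA.St.Stubs
import Pool.Agent.Helper48.ET.LocalSteps

/-! WA-3: `merge_gen`, `solG_finite` (MP_12a1af_nt, Q2) -/

set_option autoImplicit false
set_option linter.unusedVariables false

namespace Pool.Agent.Helper61.WA

open Finset Filter
open Pool.Agent.Helper48.ET
open Pool.Agent.Helper48.ET.K
open Pool.Agent.Helper3.WA

variable {p : ℕ} [Fact p.Prime]

/-- `region_struct` in the form used for the local steps -/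
theorem region_gen {C : ℕ} (hC : 8 ≤ C) {κ h h' s R0 E : ℕ} (hh : h ≤ h') (hs : h' ≤ s + 1)
    (hR0 : R0 = C ^ (s + 1 - h) * mm C κ (s + 1)) (hE : E = C ^ (h' - h) * mm C κ h') :
    R0 ≤ E ∧ ∃ M W : ℕ → ℕ → Om p, IsInv (E - R0) M W ∧ ∀ θ : Par p, ∃ Λ : ℕ → ℕ → Om p,
      ∀ y z : ℕ → ZMod p, (∀ i, h' ≤ i → i ≤ s → BlockRel C κ θ y z i) → ∀ j < E - R0,
        cell p C z h (R0 + j) = θ.val none * Qf (E - R0) M W (fun k => cell p C y h (R0 + k)) j +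
          ∑ u ∈ range (R0 + (E - R0)), Λ j u * cell p C y h u := by
  have hRE : R0 ≤ E := by
    obtain ⟨d, hd⟩ := Nat.exists_eq_add_of_le hs
    have := region_le (by omega : 0 < C) κ h h' d hh
    rw [← hd] at this
    rw [hR0, hE]
    exact this
  refine ⟨hRE, ?_⟩
  obtain ⟨M, W, hMW, H⟩ := region_struct (p := p) (by omega : 2 ≤ C) κ h h' s hh hs
  rw [← hR0, ← hE] at hMW H
  refine ⟨M, W, hMW, ?_⟩
  intro θ
  obtain ⟨Λ, hΛ⟩ := H θ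
  refine ⟨Λ, ?_⟩
  intro y z hyz j hj
  have := hΛ y z hyz j hj
  rw [this, Nat.add_sub_cancel' hRE]

/-- WA-3 (copy of `step_merge`; from `ls_gen`) -/
theorem merge_gen {C : ℕ} (hC : 8 ≤ C) (P : (ℕ → ZMod p) → (ℕ → ZMod p) → Prop)
    (L : Par p → (ℕ → ZMod p) → (ℕ → ZMod p) → Prop) {n' n j : ℕ} (θ' : Par p)
    (hfin : ∀ (θ : Par p) (t w : ℕ → ZMod p), (SolG P (L θ) t w).Finite)
    (hP : ∀ x z, P x z → ∀ i, BlockRel C (2 * n' + 1) θ' x z i)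
    (hL : ∀ θ x z, L θ x z → ∀ i, BlockRel C (2 * n + 1) θ x z i)
    (h1 : mm C (2 * n' + 1) (j + 2) = mm C (2 * n + 1) (j + 2))
    (h2 : mm C (2 * n' + 1) j = mm C (2 * n + 1) j) :
    ∃ Q : MvPolynomial (Option (ℕ × ℕ × ℕ)) (Om p), Q ≠ 0 ∧ Q.totalDegree ≤ Del C ∧
      ∀ θ : Par p, MvPolynomial.eval θ.val Q ≠ 0 → ∀ t w : ℕ → ZMod p,
        FB (SolG P (L θ) t w) (C ^ (j + 2) * mm C (2 * n + 1) (j + 2))
          (C ^ j * mm C (2 * n + 1) j) (N0 C) := by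
  obtain ⟨R0, hR0⟩ : ∃ R0, R0 = C ^ (j + 1 + 1 - j) * mm C (2 * n + 1) (j + 1 + 1) := ⟨_, rfl⟩
  obtain ⟨E, hE⟩ : ∃ E, E = C ^ (j - j) * mm C (2 * n + 1) j := ⟨_, rfl⟩
  obtain ⟨hRE, M, W, hMW, H⟩ := region_gen (p := p) hC (le_refl j) (by omega : j ≤ j + 1 + 1)
    hR0 hE
  obtain ⟨_, M', W', _, H'⟩ := region_gen (p := p) (κ := 2 * n' + 1) (R0 := R0) (E := E) hC
    (le_refl j) (by omega : j ≤ j + 1 + 1) (by rw [hR0, h1]) (by rw [hE, h2])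
  obtain ⟨Λ', hΛ'⟩ := H' θ'
  have hsz : E - R0 ≤ 2 * C ^ 4 := by
    rw [hE, hR0]
    exact region_size hC (le_refl j) (by omega) (by omega)
  have e1 : C ^ (j + 2) * mm C (2 * n + 1) (j + 2) = C ^ j * R0 := by
    rw [hR0, ← mul_assoc, ← pow_add]
    congr 2
    omega
  have e2 : C ^ j * mm C (2 * n + 1) j = C ^ j * (R0 + (E - R0)) := by
    rw [Nat.add_sub_cancel' hRE, hE, Nat.sub_self, pow_zero, one_mul]
  obtain ⟨Q, hQ0, hQd, hQ⟩ := St.ls_gen hC P L (θ'.val none) j j 0 R0 (E - R0)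
    (E - R0) (E - R0) 0 (C ^ j * mm C (2 * n + 1) j) le_rfl le_rfl (by omega) hsz (by rw [e2])
    M W M' W' Λ' hMW (fun y z hyz => hΛ' y z (fun i _ _ => hP y z hyz i))
    (fun θ => by
      obtain ⟨Λ, hΛ⟩ := H θ
      exact ⟨Λ, fun y z hyz => hΛ y z (fun i _ _ => hL θ y z hyz i)⟩)
    (fun y z _ k hk hk' => by omega) (fun θ t w x _ y _ _ r hr => by omega)
  refine ⟨Q, hQ0, hQd, ?_⟩
  intro θ hθ t w
  rw [e1]
  exact hQ θ hθ t w (hfin θ t w)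

/-- WA-3 -/
theorem solG_finite {C n' : ℕ} {θ' : Par p} (L : (ℕ → ZMod p) → (ℕ → ZMod p) → Prop)
    (t w : ℕ → ZMod p) : (SolG (PW C n' θ') L t w).Finite := by
  apply (finite_supp (p := p) (n' + 2)).subset
  rintro x ⟨z, hz, _⟩
  exact fun u hu => hz.xs u (by omega)

end Pool.Agent.Helper61.WA
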